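import Mathlib
import Pool.Agent.H71R2.WB.Tr

set_option autoImplicit false

namespace Pool.Agent.Results.MP_684c87_al.NotLiouville

open Pool.Agent.Helper889.Br in
open Pool.Agent.H71R2.WB in
theorem aux_meas : ∃ μ : GW S0 →₀ ℝ, (∀ g, 0 ≤ μ g) ∧ Finsupp.sum μ (fun _ w => w) = 1 ∧
    (∀ g, μ g⁻¹ = μ g) ∧ Subsemigroup.closure (↑μ.support : Set (GW S0)) = ⊤ ∧
    ∃ f : GW S0 → ℝ, (∃ C : ℝ, ∀ g, |f g| ≤ C) ∧
      (∀ g, f g = Finsupp.sum μ (fun s w => w * f (g * s))) ∧ ∃ a b, f a ≠ f b := by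
  obtain ⟨F, hF1, hF2, hF3⟩ := exists_harm
  exact meas_GW (S := S0) S0_faithful gH gH_top sI gH_inv F hF1 hF2 hF3

/-! ### Definitions -/

/-- `G` is amenable: it has a left invariant finitely additive probability measure defined on all
its subsets. -/
def IsAmenable (G : Type) [Group G] : Prop :=
  ∃ m : Set G → ℝ, (∀ A, 0 ≤ m A) ∧ m Set.univ = 1 ∧
    (∀ A B, Disjoint A B → m (A ∪ B) = m A + m B) ∧
    ∀ (g : G) (A : Set G), m ((fun x => g * x) '' A) = m A

/-- `G` is weakly branch. The spherically homogeneous rooted tree `T` in which every vertex of level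
`i` has `m i ≥ 2` children has the finite sequences `(x_0, …, x_(n-1))`, `x_i ∈ Fin (m i)`, as
vertices of level `n`, and the infinite sequences as boundary points. `G` acts faithfully on `T`:
`ρ` is an injective homomorphism to the permutations of the boundary such that the first `n` letters
of `g x` depend only on the first `n` letters of `x`. The action is transitive on each level, and for
each vertex `(x_0, …, x_(n-1))` some `g ≠ 1` in `G` acts trivially outside the subtree below it. -/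
def IsWeaklyBranch (G : Type) [Group G] : Prop :=
  ∃ (m : ℕ → ℕ) (_ : ∀ i, 2 ≤ m i) (ρ : G →* Equiv.Perm ((i : ℕ) → Fin (m i))), Function.Injective ρ ∧
    (∀ (g : G) (x y : (i : ℕ) → Fin (m i)) (n : ℕ), (∀ i < n, x i = y i) → ∀ i < n, ρ g x i = ρ g y i) ∧
    (∀ (n : ℕ) (x y : (i : ℕ) → Fin (m i)), ∃ g : G, ∀ i < n, ρ g x i = y i) ∧
    (∀ (n : ℕ) (x : (i : ℕ) → Fin (m i)), ∃ g : G, g ≠ 1 ∧
      ∀ z : (i : ℕ) → Fin (m i), (∃ i < n, z i ≠ x i) → ρ g z = z)

/-- `μ` is a finitely supported probability measure on `G` whose support generates `G` as a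
semigroup. -/
def IsNondegenerate {G : Type} [Group G] (μ : G →₀ ℝ) : Prop :=
  (∀ g, 0 ≤ μ g) ∧ (μ.sum fun _ w => w) = 1 ∧ Subsemigroup.closure (μ.support : Set G) = ⊤

/-- `f` is `μ`-harmonic: `f g = ∑ h, μ h * f (g h)` for all `g`. -/
def IsHarmonic {G : Type} [Group G] (μ : G →₀ ℝ) (f : G → ℝ) : Prop :=
  ∀ g : G, f g = μ.sum fun h w => w * f (g * h)

/-- `(G, μ)` is Liouville: every bounded `μ`-harmonic function on `G` is constant. -/
def IsLiouville {G : Type} [Group G] (μ : G →₀ ℝ) : Prop :=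
  ∀ f : G → ℝ, (∃ C : ℝ, ∀ g, |f g| ≤ C) → IsHarmonic μ f → ∀ a b : G, f a = f b

/-- There is a finitely generated amenable weakly branch group `G` which is not SL: for some finitely
supported probability measure `μ` on `G`, which is even symmetric, and whose support generates `G` as
a semigroup, the pair `(G, μ)` is not Liouville. -/
theorem result : ∃ (G : Type) (_ : Group G), Group.FG G ∧ IsAmenable G ∧ IsWeaklyBranch G ∧
    ∃ μ : G →₀ ℝ, IsNondegenerate μ ∧ (∀ g, μ g⁻¹ = μ g) ∧ ¬ IsLiouville μ := by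
  obtain ⟨μ, h1, h2, h3, h4, f, h5, h6, a, b, hab⟩ := aux_meas
  refine ⟨Pool.Agent.H71R2.WB.GW Pool.Agent.Helper889.Br.S0, inferInstance, ?_, ?_, ?_, μ, ⟨h1, h2, h4⟩, h3, ?_⟩
  · exact Pool.Agent.H71R2.WB.fg_GW _ Pool.Agent.H71R2.WB.gH_top
  · obtain ⟨m, m1, m0, m2, m3⟩ := Pool.Agent.Helper889.Si.amen_image Pool.Agent.H71R2.WB.amen_GW
    exact ⟨m, m0, m1, m2, m3⟩
  · exact Pool.Agent.H71R2.WB.wb_generic _ Pool.Agent.H71R2.WB.S0_card
      (Pool.Agent.H71R2.WB.level_trans Pool.Agent.H71R2.WB.S0_tr) Pool.Agent.H71R2.WB.S0_rist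
  · intro h
    exact hab (h f h5 h6 a b)

end Pool.Agent.Results.MP_684c87_al.NotLiouville
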